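import Pool.Agent.TH703.HU.Stm
import Pool.Agent.TH703.Cone.Div

/-!
# Cutting a minimizer with a cylinder over a disc
-/

set_option autoImplicit false

open MeasureTheory Set Metric Filter Topology
open scoped ENNReal Real

noncomputable section

namespace Pool.Agent.TH763.HU

open Pool.Agent.TH304.MI Pool.Agent.TH703.HU

/-! ### The cut-off function of one variable -/

theorem cutoff {α β κ : ℝ} (hαβ : α < β) (hκ : 0 < κ) (hκ1 : κ < 1) :
    ∃ Θ : ℝ → ℝ, ContDiff ℝ 1 Θ ∧ (∀ q, q ≤ α → Θ q = 1) ∧ (∀ q, β ≤ q → Θ q = 0) ∧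
      (∀ q, 0 ≤ Θ q ∧ Θ q ≤ 1) ∧ (∀ q, |deriv Θ q| ≤ 1 / ((1 - κ) * (β - α))) ∧
      (∀ q, q ≤ α ∨ β ≤ q → deriv Θ q = 0) := by
  have hd : 0 < β - α := by linarith
  have h1k : 0 < 1 - κ := by linarith
  let f : ContDiffBump ((α + β) / 2) :=
    { rIn := (1 - κ) * (β - α) / 2
      rOut := (β - α) / 2
      rIn_pos := by positivity
      rIn_lt_rOut := by nlinarith }
  have hf0 : ∀ s, 0 ≤ f s := fun s => f.nonneg
  have hf1 : ∀ s, f s ≤ 1 := fun s => f.le_one
  have hfc : Continuous (fun s => f s) := f.continuous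
  have hfz : ∀ s, s ≤ α ∨ β ≤ s → f s = 0 := by
    intro s hs
    apply f.zero_of_le_dist
    show (β - α) / 2 ≤ dist s ((α + β) / 2)
    rw [Real.dist_eq]
    rcases hs with hs | hs
    · rw [abs_of_nonpos (by linarith)]
      linarith
    · rw [abs_of_nonneg (by linarith)]
      linarith
  have hfi : ∀ a b, IntervalIntegrable (fun s => f s) volume a b := fun a b =>
    hfc.intervalIntegrable a b
  obtain ⟨I, hI⟩ : ∃ I : ℝ, I = ∫ s in α..β, f s := ⟨_, rfl⟩
  have hI1 : (1 - κ) * (β - α) ≤ I := by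
    have h1 : ∫ s in ((α + β) / 2 - (1 - κ) * (β - α) / 2)..((α + β) / 2 + (1 - κ) * (β - α) / 2),
        f s = (1 - κ) * (β - α) := by
      have h2 : ∫ s in ((α + β) / 2 - (1 - κ) * (β - α) / 2)..
          ((α + β) / 2 + (1 - κ) * (β - α) / 2), f s =
          ∫ _ in ((α + β) / 2 - (1 - κ) * (β - α) / 2)..
          ((α + β) / 2 + (1 - κ) * (β - α) / 2), (1 : ℝ) := by
        apply intervalIntegral.integral_congr
        intro s hs
        rw [uIcc_of_le (by nlinarith)] at hs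
        apply f.one_of_mem_closedBall
        rw [mem_closedBall, Real.dist_eq, abs_le]
        show -((1 - κ) * (β - α) / 2) ≤ s - (α + β) / 2 ∧
          s - (α + β) / 2 ≤ (1 - κ) * (β - α) / 2
        constructor <;> linarith [hs.1, hs.2]
      rw [h2, intervalIntegral.integral_const, smul_eq_mul]
      ring
    rw [← h1, hI]
    refine intervalIntegral.integral_mono_interval (by nlinarith) (by nlinarith) (by nlinarith)
      (Eventually.of_forall hf0) (hfi _ _)
  have hI0 : 0 < I := lt_of_lt_of_le (by positivity) hI1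
  have hder : ∀ q, HasDerivAt (fun q => (∫ s in q..β, f s) / I) (-f q / I) q := by
    intro q
    have h1 := intervalIntegral.integral_hasDerivAt_left (hfi q β)
      (hfc.stronglyMeasurableAtFilter _ _) hfc.continuousAt
    exact h1.div_const I
  have hdz : ∀ q, deriv (fun q => (∫ s in q..β, f s) / I) q = -f q / I := fun q =>
    (hder q).deriv
  have hnn : ∀ a b : ℝ, a ≤ b → 0 ≤ ∫ s in a..b, f s := fun a b hab =>
    intervalIntegral.integral_nonneg hab fun s _ => hf0 s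
  have hz : ∀ q, β ≤ q → (∫ s in q..β, f s) = 0 := by
    intro q hq
    rw [intervalIntegral.integral_symm]
    have : ∫ s in β..q, f s = ∫ _ in β..q, (0 : ℝ) := by
      apply intervalIntegral.integral_congr
      intro s hs
      rw [uIcc_of_le hq] at hs
      exact hfz s (Or.inr hs.1)
    rw [this, intervalIntegral.integral_zero, neg_zero]
  have ho : ∀ q, q ≤ α → (∫ s in q..β, f s) = I := by
    intro q hq
    rw [← intervalIntegral.integral_add_adjacent_intervals (hfi q α) (hfi α β), ← hI]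
    have : ∫ s in q..α, f s = ∫ _ in q..α, (0 : ℝ) := by
      apply intervalIntegral.integral_congr
      intro s hs
      rw [uIcc_of_le hq] at hs
      exact hfz s (Or.inl hs.2)
    rw [this, intervalIntegral.integral_zero, zero_add]
  refine ⟨fun q => (∫ s in q..β, f s) / I, ?_, ?_, ?_, ?_, ?_, ?_⟩
  · rw [contDiff_one_iff_deriv]
    refine ⟨fun q => (hder q).differentiableAt, ?_⟩
    have h1 : deriv (fun q => (∫ s in q..β, f s) / I) = fun q => -f q / I := funext hdz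
    rw [h1]
    exact hfc.neg.div_const I
  · intro q hq
    simp only
    rw [ho q hq]
    exact div_self hI0.ne'
  · intro q hq
    simp only
    rw [hz q hq, zero_div]
  · intro q
    simp only
    rcases le_total q α with h1 | h1
    · rw [ho q h1, div_self hI0.ne']
      exact ⟨zero_le_one, le_rfl⟩
    rcases le_total β q with h2 | h2
    · rw [hz q h2, zero_div]
      exact ⟨le_rfl, zero_le_one⟩
    · refine ⟨div_nonneg (hnn _ _ h2) hI0.le, (div_le_one hI0).2 ?_⟩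
      rw [hI, ← intervalIntegral.integral_add_adjacent_intervals (hfi α q) (hfi q β)]
      linarith [hnn α q h1]
  · intro q
    rw [hdz q, abs_div, abs_neg, abs_of_nonneg (hf0 q), abs_of_pos hI0]
    exact div_le_div₀ zero_le_one (hf1 q) (by positivity) hI1
  · intro q hq
    rw [hdz q, hfz q hq, neg_zero, zero_div]

/-! ### The squared distance of the first two coordinates -/

/-- `‖xc p - c‖ ^ 2` -/
def rq {b : ℕ} (c : ℂ) (p : PP b) : ℝ := (p 0 - c.re) ^ 2 + (p 1 - c.im) ^ 2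

theorem norm_sub_sq {b : ℕ} (c : ℂ) (p : PP b) : ‖xc p - c‖ ^ 2 = rq c p := by
  rw [← Complex.normSq_eq_norm_sq, Complex.normSq_apply]
  unfold rq xc
  simp only [Complex.sub_re, Complex.sub_im]
  ring

theorem norm_xc_le {b : ℕ} (p : PP b) : ‖xc p‖ ≤ ‖p‖ := by
  have h1 : ‖xc p‖ ^ 2 = p 0 ^ 2 + p 1 ^ 2 := by
    rw [← Complex.normSq_eq_norm_sq, Complex.normSq_apply]
    unfold xc
    simp only
    ring
  have h2 : ‖p‖ ^ 2 = p 0 ^ 2 + (p 1 ^ 2 + ∑ i : Fin b, p i.succ.succ ^ 2) := by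
    rw [EuclideanSpace.real_norm_sq_eq, Fin.sum_univ_succ, Fin.sum_univ_succ]
    rfl
  have h3 : 0 ≤ ∑ i : Fin b, p i.succ.succ ^ 2 := Finset.sum_nonneg fun i _ => sq_nonneg _
  exact abs_le_of_sq_le_sq' (by rw [h1, h2]; linarith) (norm_nonneg _) |>.2

theorem xc_sc {b : ℕ} (ε : ℝ) (p : PP b) : xc (sc ε p) = xc p := by
  unfold xc sc
  simp

theorem hasFDerivAt_rq {b : ℕ} (c : ℂ) (p : PP b) :
    HasFDerivAt (rq c) ((2 * (p 0 - c.re)) • (EuclideanSpace.proj 0 : PP b →L[ℝ] ℝ) +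
      (2 * (p 1 - c.im)) • (EuclideanSpace.proj 1 : PP b →L[ℝ] ℝ)) p := by
  have h0 : HasFDerivAt (fun p : PP b => p 0) (EuclideanSpace.proj 0 : PP b →L[ℝ] ℝ) p :=
    (EuclideanSpace.proj 0 : PP b →L[ℝ] ℝ).hasFDerivAt
  have h1 : HasFDerivAt (fun p : PP b => p 1) (EuclideanSpace.proj 1 : PP b →L[ℝ] ℝ) p :=
    (EuclideanSpace.proj 1 : PP b →L[ℝ] ℝ).hasFDerivAt
  have h2 := (h0.sub_const c.re).pow 2
  have h3 := (h1.sub_const c.im).pow 2
  have h4 := h2.add h3
  refine h4.congr_fderiv ?_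
  ext v
  simp

theorem contDiff_rq {b : ℕ} (c : ℂ) : ContDiff ℝ 1 (rq c : PP b → ℝ) := by
  have h0 : ContDiff ℝ 1 (fun p : PP b => p 0) :=
    (EuclideanSpace.proj 0 : PP b →L[ℝ] ℝ).contDiff
  have h1 : ContDiff ℝ 1 (fun p : PP b => p 1) :=
    (EuclideanSpace.proj 1 : PP b →L[ℝ] ℝ).contDiff
  unfold rq
  exact ((h0.sub contDiff_const).pow 2).add ((h1.sub contDiff_const).pow 2)

theorem fderiv_rq_le {b : ℕ} (c : ℂ) (p v : PP b) :
    |fderiv ℝ (rq c) p v| ≤ 2 * ‖xc p - c‖ * ‖xc v‖ := by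
  rw [(hasFDerivAt_rq c p).fderiv]
  have h1 : ((2 * (p 0 - c.re)) • (EuclideanSpace.proj 0 : PP b →L[ℝ] ℝ) +
      (2 * (p 1 - c.im)) • (EuclideanSpace.proj 1 : PP b →L[ℝ] ℝ)) v =
      2 * ((p 0 - c.re) * v 0 + (p 1 - c.im) * v 1) := by
    simp
    ring
  rw [h1]
  have h2 : ‖xc p - c‖ ^ 2 = (p 0 - c.re) ^ 2 + (p 1 - c.im) ^ 2 := norm_sub_sq c p
  have h3 : ‖xc v‖ ^ 2 = v 0 ^ 2 + v 1 ^ 2 := by
    have := norm_sub_sq 0 v
    simpa [rq] using this
  have h4 : (2 * ((p 0 - c.re) * v 0 + (p 1 - c.im) * v 1)) ^ 2 ≤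
      (2 * ‖xc p - c‖ * ‖xc v‖) ^ 2 := by
    have e : (2 * ‖xc p - c‖ * ‖xc v‖) ^ 2 = 4 * (‖xc p - c‖ ^ 2 * ‖xc v‖ ^ 2) := by ring
    rw [e, h2, h3]
    nlinarith [sq_nonneg ((p 0 - c.re) * v 1 - (p 1 - c.im) * v 0)]
  exact abs_le_of_sq_le_sq h4 (by positivity)

/-! ### The glued field -/

/-- `(1 - χ) X1 + χ X2` with `χ = Θ (rq c)` -/
def glue {b : ℕ} (Θ : ℝ → ℝ) (c : ℂ) (X1 X2 : PP b → PP b) : PP b → PP b :=
  fun p => X1 p + Θ (rq c p) • (X2 p + -X1 p)

theorem sc_glue {b : ℕ} (ε χ : ℝ) (x y : PP b) :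
    sc ε (x + χ • (y + -x)) = (1 - χ) • sc ε x + χ • sc ε y := by
  ext i
  simp only [sc, PiLp.add_apply, PiLp.smul_apply, PiLp.neg_apply, smul_eq_mul]
  split_ifs <;> ring

theorem fld_glue {b : ℕ} {ε : ℝ} {Ω : Set (PP b)} {Θ : ℝ → ℝ} (hΘ : ContDiff ℝ 1 Θ)
    (hb : ∀ q, 0 ≤ Θ q ∧ Θ q ≤ 1) (c : ℂ) {X1 X2 : PP b → PP b} (h1 : Fld ε Ω X1)
    (h2 : Fld ε Ω X2) : Fld ε Ω (glue Θ c X1 X2) := by
  have hsub : tsupport (glue Θ c X1 X2) ⊆ tsupport X1 ∪ tsupport X2 := by
    refine closure_minimal ?_ ((isClosed_tsupport _).union (isClosed_tsupport _))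
    intro p hp
    by_contra hn
    rw [mem_union, not_or] at hn
    have e1 : X1 p = 0 := image_eq_zero_of_notMem_tsupport hn.1
    have e2 : X2 p = 0 := image_eq_zero_of_notMem_tsupport hn.2
    apply hp
    unfold glue
    rw [e1, e2]
    simp
  refine ⟨?_, ?_, hsub.trans (union_subset h1.sub h2.sub), ?_⟩
  · unfold glue
    exact h1.cd.add ((hΘ.comp (contDiff_rq c)).smul (h2.cd.add h1.cd.neg))
  · exact IsCompact.of_isClosed_subset (h1.cs.isCompact.union h2.cs.isCompact)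
      (isClosed_tsupport _) hsub
  · intro p
    unfold glue
    rw [sc_glue]
    obtain ⟨ha, hb'⟩ := hb (rq c p)
    calc ‖(1 - Θ (rq c p)) • sc ε (X1 p) + Θ (rq c p) • sc ε (X2 p)‖
        ≤ ‖(1 - Θ (rq c p)) • sc ε (X1 p)‖ + ‖Θ (rq c p) • sc ε (X2 p)‖ := norm_add_le _ _
      _ = (1 - Θ (rq c p)) * ‖sc ε (X1 p)‖ + Θ (rq c p) * ‖sc ε (X2 p)‖ := by
          rw [norm_smul, norm_smul, Real.norm_of_nonneg (by linarith), Real.norm_of_nonneg ha]
      _ ≤ (1 - Θ (rq c p)) * 1 + Θ (rq c p) * 1 := by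
          refine add_le_add (mul_le_mul_of_nonneg_left (h1.bd p) (by linarith))
            (mul_le_mul_of_nonneg_left (h2.bd p) ha)
      _ = 1 := by ring

theorem dv_glue {b : ℕ} {Θ : ℝ → ℝ} (hΘ : ContDiff ℝ 1 Θ) (c : ℂ) {X1 X2 : PP b → PP b}
    (h1 : ContDiff ℝ 1 X1) (h2 : ContDiff ℝ 1 X2) (p : PP b) :
    dv (glue Θ c X1 X2) p = dv X1 p + (Θ (rq c p) * (dv X2 p + -dv X1 p) +
      deriv Θ (rq c p) * fderiv ℝ (rq c) p (X2 p + -X1 p)) := by
  have d1 : DifferentiableAt ℝ X1 p := h1.differentiable (by norm_num) p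
  have d2 : DifferentiableAt ℝ X2 p := h2.differentiable (by norm_num) p
  have dq : DifferentiableAt ℝ (rq c : PP b → ℝ) p := (hasFDerivAt_rq c p).differentiableAt
  have dΘ : DifferentiableAt ℝ Θ (rq c p) := hΘ.differentiable (by norm_num) _
  have dχ : DifferentiableAt ℝ (fun p : PP b => Θ (rq c p)) p := dΘ.comp p dq
  have dW : DifferentiableAt ℝ (fun p => X2 p + -X1 p) p := d2.add d1.neg
  have e1 : dv (glue Θ c X1 X2) p = dv X1 p + dv (fun p => Θ (rq c p) • (X2 p + -X1 p)) p :=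
    Pool.Agent.TH703.Cone.Div.dv_add d1 (dχ.smul dW)
  have e2 : dv (fun p => Θ (rq c p) • (X2 p + -X1 p)) p =
      Θ (rq c p) * dv (fun p => X2 p + -X1 p) p +
        fderiv ℝ (fun p : PP b => Θ (rq c p)) p (X2 p + -X1 p) :=
    Pool.Agent.TH703.Cone.Div.dv_smul dχ dW
  have e3 : dv (fun p => X2 p + -X1 p) p = dv X2 p + -dv X1 p := by
    have h3 : dv (fun p => X2 p + -X1 p) p = dv X2 p + dv (fun p => -X1 p) p :=
      Pool.Agent.TH703.Cone.Div.dv_add d2 d1.neg
    have h4 : dv (fun p => -X1 p) p = -dv X1 p := Pool.Agent.TH703.Cone.Div.dv_neg X1 p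
    rw [h3, h4]
  have e4 : fderiv ℝ (fun p : PP b => Θ (rq c p)) p (X2 p + -X1 p) =
      deriv Θ (rq c p) * fderiv ℝ (rq c) p (X2 p + -X1 p) := by
    have h5 : HasFDerivAt (fun p : PP b => Θ (rq c p)) (deriv Θ (rq c p) • fderiv ℝ (rq c) p) p :=
      dΘ.hasDerivAt.comp_hasFDerivAt p dq.hasFDerivAt
    rw [h5.fderiv]
    rfl
  rw [e1, e2, e3, e4]

/-! ### The cutting inequality -/

/-- the cylinder over the disc -/
def RR (b : ℕ) (c : ℂ) (t : ℝ) : Set (PP b) := {p | ‖xc p - c‖ < t}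

theorem cont_xc {b : ℕ} : Continuous (xc : PP b → ℂ) := by
  have h : (xc : PP b → ℂ) = fun p => ((p 0 : ℝ) : ℂ) + ((p 1 : ℝ) : ℂ) * Complex.I := by
    funext p
    apply Complex.ext <;> simp [xc]
  rw [h]
  have h0 : Continuous (fun p : PP b => p 0) := (EuclideanSpace.proj 0 : PP b →L[ℝ] ℝ).continuous
  have h1 : Continuous (fun p : PP b => p 1) := (EuclideanSpace.proj 1 : PP b →L[ℝ] ℝ).continuous
  exact (Complex.continuous_ofReal.comp h0).add
    ((Complex.continuous_ofReal.comp h1).mul continuous_const)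

theorem meas_RR (b : ℕ) (c : ℂ) (t : ℝ) : MeasurableSet (RR b c t) :=
  (isOpen_lt (cont_xc.sub continuous_const).norm continuous_const).measurableSet

theorem int_dv {b : ℕ} {ε : ℝ} {Ω : Set (PP b)} {X : PP b → PP b} (h : Fld ε Ω X) :
    Integrable (dv X) :=
  Pool.Agent.TH703.Cone.Div.integrable_dv h.cd h.cs

theorem cut_step {b : ℕ} {ε : ℝ} {Ω F : Set (PP b)} (hF : MeasurableSet F)
    (hfin : volume F ≠ ∞) {P : ℝ} (hP : PLe ε Ω F P) {X1 X2 : PP b → PP b} (h1 : Fld ε Ω X1)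
    (h2 : Fld ε Ω X2) (c : ℂ) {t : ℝ} (ht : 0 < t) {S : ℝ}
    (hS : ∀ p, |dv X2 p + -dv X1 p| ≤ S) {η : ℝ} (hη : 0 < η) (hη1 : η < 1) :
    (∫ p in F \ RR b c t, dv X1 p) + (∫ p in F ∩ RR b c t, dv X2 p) ≤
      P + (S + 4 * (t + η) / ((1 - η) * (η * (2 * t + η)))) *
        (volume.real (F ∩ RR b c (t + η)) - volume.real (F ∩ RR b c t)) := by
  have hαβ : t ^ 2 < (t + η) ^ 2 := by nlinarith
  obtain ⟨Θ, hΘ, ha, hz, hb, hd, hdz⟩ := cutoff hαβ hη hη1
  have hX := fld_glue hΘ hb c h1 h2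
  have hle := hP _ hX
  have hdv := dv_glue hΘ c h1.cd h2.cd
  have hmR := meas_RR b c t
  have hmR' := meas_RR b c (t + η)
  set L : ℝ := 4 * (t + η) / ((1 - η) * (η * (2 * t + η))) with hL
  have hden : 0 < (1 - η) * (η * (2 * t + η)) := by
    have : 0 < 1 - η := by linarith
    positivity
  have hL0 : 0 ≤ L := by positivity
  have hS0 : 0 ≤ S := (abs_nonneg _).trans (hS 0)
  have hXi := int_dv hX
  -- split
  have hsplit := integral_inter_add_sdiff (μ := volume) hmR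
    (hXi.integrableOn (s := F))
  -- inside
  have hin : ∫ p in F ∩ RR b c t, dv (glue Θ c X1 X2) p = ∫ p in F ∩ RR b c t, dv X2 p := by
    refine setIntegral_congr_fun (hF.inter hmR) fun p hp => ?_
    have hq : rq c p ≤ t ^ 2 := by
      rw [← norm_sub_sq]
      have : ‖xc p - c‖ < t := hp.2
      exact pow_le_pow_left₀ (norm_nonneg _) this.le 2
    rw [hdv p, ha _ hq, hdz _ (Or.inl hq)]
    ring
  -- outside
  have hout : (∫ p in F \ RR b c t, dv X1 p) - (S + L) *
      volume.real ((F \ RR b c t) ∩ RR b c (t + η)) ≤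
      ∫ p in F \ RR b c t, dv (glue Θ c X1 X2) p := by
    have hfin2 : volume (F \ RR b c t) ≠ ∞ := ne_top_of_le_ne_top hfin (measure_mono sdiff_subset)
    have hci : IntegrableOn (fun p => (RR b c (t + η)).indicator (fun _ => S + L) p)
        (F \ RR b c t) volume := by
      refine IntegrableOn.indicator ?_ hmR'
      exact integrableOn_const hfin2
    have h3 : (S + L) * volume.real ((F \ RR b c t) ∩ RR b c (t + η)) =
        ∫ p in F \ RR b c t, (RR b c (t + η)).indicator (fun _ => S + L) p := by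
      rw [integral_indicator hmR', Measure.restrict_restrict hmR', setIntegral_const,
        inter_comm, smul_eq_mul, mul_comm]
    rw [h3, ← integral_sub (int_dv h1).integrableOn hci]
    refine setIntegral_mono_on ((int_dv h1).integrableOn.sub hci) hXi.integrableOn
      (hF.diff hmR) fun p hp => ?_
    rw [hdv p]
    by_cases hr : p ∈ RR b c (t + η)
    · rw [indicator_of_mem hr]
      have hr' : ‖xc p - c‖ < t + η := hr
      have e1 : |Θ (rq c p) * (dv X2 p + -dv X1 p)| ≤ S := by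
        rw [abs_mul, abs_of_nonneg (hb _).1]
        calc Θ (rq c p) * |dv X2 p + -dv X1 p| ≤ 1 * S :=
              mul_le_mul (hb _).2 (hS p) (abs_nonneg _) zero_le_one
          _ = S := one_mul S
      have e2 : |deriv Θ (rq c p) * fderiv ℝ (rq c) p (X2 p + -X1 p)| ≤ L := by
        rw [abs_mul]
        have e3 : ‖xc (X2 p + -X1 p)‖ ≤ 2 := by
          have e4 : xc (X2 p + -X1 p) = xc (X2 p) - xc (X1 p) := by
            apply Complex.ext <;> simp [xc, sub_eq_add_neg]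
          have e5 : ‖xc (X2 p)‖ ≤ 1 := by
            rw [← xc_sc ε (X2 p)]
            exact (norm_xc_le _).trans (h2.bd p)
          have e6 : ‖xc (X1 p)‖ ≤ 1 := by
            rw [← xc_sc ε (X1 p)]
            exact (norm_xc_le _).trans (h1.bd p)
          rw [e4]
          calc ‖xc (X2 p) - xc (X1 p)‖ ≤ ‖xc (X2 p)‖ + ‖xc (X1 p)‖ := norm_sub_le _ _
            _ ≤ 2 := by linarith
        have e7 : |fderiv ℝ (rq c) p (X2 p + -X1 p)| ≤ 4 * (t + η) := by
          refine (fderiv_rq_le c p _).trans ?_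
          calc 2 * ‖xc p - c‖ * ‖xc (X2 p + -X1 p)‖ ≤ 2 * (t + η) * 2 :=
                mul_le_mul (by linarith) e3 (norm_nonneg _) (by positivity)
            _ = 4 * (t + η) := by ring
        calc |deriv Θ (rq c p)| * |fderiv ℝ (rq c) p (X2 p + -X1 p)|
            ≤ (1 / ((1 - η) * ((t + η) ^ 2 - t ^ 2))) * (4 * (t + η)) :=
              mul_le_mul (hd _) e7 (abs_nonneg _) (by
                have : 0 < 1 - η := by linarith
                have : 0 < (t + η) ^ 2 - t ^ 2 := by linarith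
                positivity)
          _ = L := by
              rw [hL]
              have e8 : (t + η) ^ 2 - t ^ 2 = η * (2 * t + η) := by ring
              rw [e8, one_div, inv_mul_eq_div]
      have e9 := neg_abs_le (Θ (rq c p) * (dv X2 p + -dv X1 p))
      have e10 := neg_abs_le (deriv Θ (rq c p) * fderiv ℝ (rq c) p (X2 p + -X1 p))
      linarith
    · rw [indicator_of_notMem hr]
      have hr' : t + η ≤ ‖xc p - c‖ := not_lt.1 hr
      have hq : (t + η) ^ 2 ≤ rq c p := by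
        rw [← norm_sub_sq]
        exact pow_le_pow_left₀ (by positivity) hr' 2
      rw [hz _ hq, hdz _ (Or.inr hq)]
      linarith
  have hvol : volume.real ((F \ RR b c t) ∩ RR b c (t + η)) =
      volume.real (F ∩ RR b c (t + η)) - volume.real (F ∩ RR b c t) := by
    have hsub : F ∩ RR b c t ⊆ F ∩ RR b c (t + η) := by
      intro p hp
      refine ⟨hp.1, ?_⟩
      have : ‖xc p - c‖ < t := hp.2
      show ‖xc p - c‖ < t + η
      linarith
    have hset : (F \ RR b c t) ∩ RR b c (t + η) =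
        (F ∩ RR b c (t + η)) \ (F ∩ RR b c t) := by
      ext p
      constructor
      · rintro ⟨⟨ha, hb⟩, hc⟩
        exact ⟨⟨ha, hc⟩, fun h => hb h.2⟩
      · rintro ⟨⟨ha, hc⟩, hb⟩
        exact ⟨⟨ha, fun h => hb ⟨ha, h⟩⟩, hc⟩
    rw [hset, measureReal_sdiff hsub (hF.inter hmR)
      (ne_top_of_le_ne_top hfin (measure_mono inter_subset_left))]
  rw [hvol] at hout
  rw [hin] at hsplit
  linarith

theorem cut {b : ℕ} {ε : ℝ} {Ω F : Set (PP b)} (hF : MeasurableSet F)
    (hfin : volume F ≠ ∞) {P : ℝ} (hP : PLe ε Ω F P) {X1 X2 : PP b → PP b} (h1 : Fld ε Ω X1)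
    (h2 : Fld ε Ω X2) (c : ℂ) {t d : ℝ} (ht : 0 < t)
    (hd : HasDerivAt (fun t : ℝ => volume.real (F ∩ RR b c t)) d t) :
    (∫ p in F \ RR b c t, dv X1 p) + (∫ p in F ∩ RR b c t, dv X2 p) ≤ P + 2 * d := by
  obtain ⟨S, hS⟩ : ∃ S : ℝ, ∀ p, |dv X2 p + -dv X1 p| ≤ S := by
    obtain ⟨S1, hS1⟩ := (Pool.Agent.TH703.Cone.Div.hasCompactSupport_dv
      h1.cs).exists_bound_of_continuous (Pool.Agent.TH703.Cone.Div.continuous_dv h1.cd)
    obtain ⟨S2, hS2⟩ := (Pool.Agent.TH703.Cone.Div.hasCompactSupport_dv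
      h2.cs).exists_bound_of_continuous (Pool.Agent.TH703.Cone.Div.continuous_dv h2.cd)
    refine ⟨S2 + S1, fun p => ?_⟩
    have a1 : |dv X1 p| ≤ S1 := hS1 p
    have a2 : |dv X2 p| ≤ S2 := hS2 p
    calc |dv X2 p + -dv X1 p| ≤ |dv X2 p| + |-dv X1 p| := abs_add_le _ _
      _ ≤ S2 + S1 := by rw [abs_neg]; exact add_le_add a2 a1
  have hsl := hd.tendsto_slope_zero_right
  have hη : Tendsto (fun η : ℝ => η) (𝓝[>] 0) (𝓝 0) := tendsto_nhdsWithin_of_tendsto_nhds
    tendsto_id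
  have hc1 : Tendsto (fun η : ℝ => S * η + 4 * (t + η) / ((1 - η) * (2 * t + η))) (𝓝[>] 0)
      (𝓝 (S * 0 + 4 * (t + 0) / ((1 - 0) * (2 * t + 0)))) := by
    refine (hη.const_mul S).add (Tendsto.div ((hη.const_add t).const_mul 4)
      ((hη.const_sub 1).mul (hη.const_add (2 * t))) ?_)
    have : 0 < 2 * t := by linarith
    simp [this.ne']
  have hlim := (hc1.mul hsl).const_add P
  have e0 : P + (S * 0 + 4 * (t + 0) / ((1 - 0) * (2 * t + 0))) * d = P + 2 * d := by
    have : t ≠ 0 := ht.ne'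
    field_simp
    ring
  rw [e0] at hlim
  refine ge_of_tendsto hlim ?_
  have hev : ∀ᶠ η : ℝ in 𝓝[>] 0, η ∈ Ioo (0 : ℝ) 1 :=
    Ioo_mem_nhdsGT one_pos
  filter_upwards [hev] with η hη'
  have h3 := cut_step hF hfin hP h1 h2 c ht hS hη'.1 hη'.2
  refine h3.trans (le_of_eq ?_)
  simp only [smul_eq_mul]
  have a1 : η ≠ 0 := hη'.1.ne'
  have a2 : 1 - η ≠ 0 := by linarith [hη'.2]
  have a3 : 2 * t + η ≠ 0 := by linarith [hη'.1]
  field_simp

/-- **B5.** -/
theorem b5 : S_B5 := by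
  intro b ε Ω Λ v F _ _ hΩb _ hmin c t d ht hd
  have hfin : volume F ≠ ∞ := ((hΩb.subset hmin.sub).measure_lt_top).ne
  have hmR := meas_RR b c t
  have hd' : HasDerivAt (fun t : ℝ => volume.real (F ∩ RR b c t)) d t := hd
  have hv : 0 ≤ v := measureReal_nonneg.trans hmin.le
  have hzero : Fld ε Ω (fun _ : PP b => (0 : PP b)) := by
    refine ⟨contDiff_const, HasCompactSupport.zero, ?_, ?_⟩
    · have : tsupport (fun _ : PP b => (0 : PP b)) = ∅ := by
        rw [tsupport_eq_empty_iff]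
        rfl
      rw [this]
      exact empty_subset _
    · intro p
      have : sc ε (0 : PP b) = 0 := by
        ext i
        simp [sc]
      rw [this, norm_zero]
      exact zero_le_one
  have hdv0 : ∀ p, dv (fun _ : PP b => (0 : PP b)) p = 0 := by
    intro p
    unfold dv
    rw [fderiv_fun_const]
    simp
  -- some bound of `F`
  have hP0 : PLe ε Ω F (0 + Λ * (volume.real F - volume.real (∅ : Set (PP b)))) := by
    refine hmin.min ∅ 0 MeasurableSet.empty (empty_subset _) (by simpa using hv) ?_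
    intro φ _
    simp
  -- the least bound of the outer part
  let T : Set ℝ := {r | ∃ X1 : PP b → PP b, Fld ε Ω X1 ∧ r = ∫ p in F \ RR b c t, dv X1 p}
  have hTne : T.Nonempty := ⟨_, _, hzero, rfl⟩
  have hTb : BddAbove T := by
    refine ⟨(0 + Λ * (volume.real F - volume.real (∅ : Set (PP b)))) + 2 * d, ?_⟩
    rintro _ ⟨X1, h1, rfl⟩
    have h3 := cut hmin.meas hfin hP0 h1 hzero c ht hd'
    simp only [hdv0, integral_zero, add_zero] at h3
    exact h3
  have hout : PLe ε Ω (F \ RR b c t) (sSup T) := fun φ hφ => le_csSup hTb ⟨φ, hφ, rfl⟩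
  have hle : volume.real (F \ RR b c t) ≤ v :=
    (measureReal_mono sdiff_subset hfin).trans hmin.le
  have hP1 := hmin.min (F \ RR b c t) (sSup T) (hmin.meas.diff hmR)
    (sdiff_subset.trans hmin.sub) hle hout
  have hvol : volume.real F - volume.real (F \ RR b c t) = volume.real (F ∩ RR b c t) := by
    have := measureReal_inter_add_sdiff (μ := volume) (s := F) hmR hfin
    linarith
  rw [hvol] at hP1
  intro φ hφ
  have h4 : sSup T ≤ sSup T + Λ * volume.real (F ∩ RR b c t) + 2 * d -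
      ∫ p in F ∩ RR b c t, dv φ p := by
    refine csSup_le hTne ?_
    rintro _ ⟨X1, h1, rfl⟩
    have h5 := cut hmin.meas hfin hP1 h1 hφ c ht hd'
    linarith
  have h6 : ∫ p in F ∩ RR b c t, dv φ p ≤ 2 * d + Λ * volume.real (F ∩ RR b c t) := by linarith
  exact h6

end Pool.Agent.TH763.HU
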